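import Pool.Agent.helper82.T6.SpecL
import Pool.Agent.helper47.RA.Num

set_option autoImplicit false

namespace Pool.Agent.T6

open Finset Pool.Agent.helper3.FT

theorem Z7_inj {v w : V4} (hv1 : v.2.1 ≠ 0) (hv2 : v.2.2.1 ≠ 0) (h1 : 5 * v.1 * v.2.2.1 ^ 2 = v.2.1 ^ 3)
    (h2 : 5 * v.2.2.2 * v.2.1 ^ 2 = v.2.2.1 ^ 3) (h3 : 5 * w.1 * w.2.2.1 ^ 2 = w.2.1 ^ 3)
    (h4 : 5 * w.2.2.2 * w.2.1 ^ 2 = w.2.2.1 ^ 3) (ha : v.2.1 = w.2.1) (hb : v.2.2.1 = w.2.2.1) : v = w := by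
  obtain ⟨a, a', b, x⟩ := v
  obtain ⟨c, c', d, y⟩ := w
  simp only at *
  subst ha hb
  have e1 : a = c := by
    have h5 : (5 * b ^ 2) * a = (5 * b ^ 2) * c := by linear_combination h1 - h3
    exact mul_left_cancel₀ (mul_ne_zero (by norm_num) (pow_ne_zero 2 hv2)) h5
  have e2 : x = y := by
    have h5 : (5 * a' ^ 2) * x = (5 * a' ^ 2) * y := by linear_combination h2 - h4
    exact mul_left_cancel₀ (mul_ne_zero (by norm_num) (pow_ne_zero 2 hv1)) h5
  rw [e1, e2]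

theorem Z7 : Z7_stmt := by
  classical
  intro ε hε
  obtain ⟨C, hC1, hC⟩ := Pool.Agent.helper47.RA.card_divisors_le (ε / 2) (by positivity)
  refine ⟨4 * C, by linarith, ?_⟩
  intro b V F hb hV hF
  set n : ℕ := ⌊V⌋₊ with hn
  have hnV : (n : ℝ) ≤ V := Nat.floor_le (by linarith)
  let S : Finset (Σ _ : ℤ, ℕ × ℤ) := ((Finset.Icc (-(n : ℤ)) n).erase 0).sigma
    (fun B => (B ^ 2).natAbs.divisors ×ˢ ({1, -1} : Finset ℤ))
  have hmaps : ∀ v ∈ F, (⟨v.2.2.1, (v.2.1.natAbs, v.2.1.sign)⟩ : Σ _ : ℤ, ℕ × ℤ) ∈ S := by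
    intro v hv
    obtain ⟨h0, h1, h2, h3, h4⟩ := hF v hv
    have hB : |(v.2.2.1 : ℝ)| ≤ V := by
      have h5 : |(v.2.2.1 : ℝ)| * b ≤ nrm b v := le_trans (le_max_left _ _) (le_max_right _ _)
      have h6 : |(v.2.2.1 : ℝ)| ≤ |(v.2.2.1 : ℝ)| * b := le_mul_of_one_le_right (abs_nonneg _) hb
      linarith
    have hBn : v.2.2.1.natAbs ≤ n := by
      rw [hn]
      apply Nat.le_floor
      have h5 : ((v.2.2.1.natAbs : ℕ) : ℝ) = |(v.2.2.1 : ℝ)| := by
        rw [Nat.cast_natAbs]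
        simp
      rw [h5]
      exact hB
    rw [Finset.mem_sigma]
    refine ⟨?_, ?_⟩
    · rw [Finset.mem_erase, Finset.mem_Icc]
      exact ⟨h2, by simp only; omega, by simp only; omega⟩
    · rw [Finset.mem_product]
      refine ⟨?_, ?_⟩
      · rw [Nat.mem_divisors]
        refine ⟨?_, ?_⟩
        · simp only
          rw [Int.natAbs_dvd_natAbs]
          have h5 : v.2.1 ^ 2 ∣ (v.2.2.1 ^ 2) ^ 2 := by
            have h6 : v.2.1 ^ 2 ∣ v.2.2.1 ^ 3 := ⟨5 * v.2.2.2, by rw [← h4]; ring⟩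
            have h7 : (v.2.2.1 ^ 2) ^ 2 = v.2.2.1 ^ 3 * v.2.2.1 := by ring
            rw [h7]
            exact Dvd.dvd.mul_right h6 _
          exact (Int.pow_dvd_pow_iff two_ne_zero).1 h5
        · simp only
          rw [Int.natAbs_ne_zero]
          exact pow_ne_zero 2 h2
      · simp only [Finset.mem_insert, Finset.mem_singleton]
        rcases lt_trichotomy v.2.1 0 with h5 | h5 | h5
        · right
          exact Int.sign_eq_neg_one_of_neg h5
        · exact absurd h5 h1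
        · left
          exact Int.sign_eq_one_of_pos h5
  have hinj : ∀ v ∈ F, ∀ w ∈ F, (⟨v.2.2.1, (v.2.1.natAbs, v.2.1.sign)⟩ : Σ _ : ℤ, ℕ × ℤ) =
      ⟨w.2.2.1, (w.2.1.natAbs, w.2.1.sign)⟩ → v = w := by
    intro v hv w hw h
    obtain ⟨-, h1, h2, h3, h4⟩ := hF v hv
    obtain ⟨-, -, -, h5, h6⟩ := hF w hw
    have hb' : v.2.2.1 = w.2.2.1 := congrArg Sigma.fst h
    have h7 : (v.2.1.natAbs, v.2.1.sign) = (w.2.1.natAbs, w.2.1.sign) := by
      have := congrArg (fun s : Σ _ : ℤ, ℕ × ℤ => s.2) h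
      exact this
    have ha' : v.2.1 = w.2.1 := by
      rw [← Int.sign_mul_natAbs v.2.1, ← Int.sign_mul_natAbs w.2.1, (Prod.mk.inj h7).1, (Prod.mk.inj h7).2]
    exact Z7_inj h1 h2 h3 h4 h5 h6 ha' hb'
  have hcard : F.card ≤ S.card := Finset.card_le_card_of_injOn _ hmaps (fun v hv w hw h => hinj v hv w hw h)
  have hS : (S.card : ℝ) ≤ 4 * C * V ^ (1 + ε) := by
    rw [Finset.card_sigma]
    push_cast
    have h1 : ∀ B ∈ (Finset.Icc (-(n : ℤ)) n).erase 0,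
        (((B ^ 2).natAbs.divisors ×ˢ ({1, -1} : Finset ℤ)).card : ℝ) ≤ 2 * C * V ^ ε := by
      intro B hB
      rw [Finset.mem_erase, Finset.mem_Icc] at hB
      obtain ⟨hB0, hB1, hB2⟩ := hB
      have hpos : 0 < (B ^ 2).natAbs := Int.natAbs_pos.2 (pow_ne_zero 2 hB0)
      have h2 := hC _ hpos
      have h3 : (((B ^ 2).natAbs : ℕ) : ℝ) ≤ V ^ (2 : ℝ) := by
        rw [Int.natAbs_pow]
        push_cast
        have h4 : ((B.natAbs : ℕ) : ℝ) ≤ V := by
          have : B.natAbs ≤ n := by omega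
          have h5 : ((B.natAbs : ℕ) : ℝ) ≤ (n : ℝ) := by exact_mod_cast this
          linarith
        have h6 : V ^ (2 : ℝ) = V ^ 2 := by
          exact_mod_cast Real.rpow_natCast V 2
        rw [h6]
        exact pow_le_pow_left₀ (Nat.cast_nonneg _) h4 2
      have h4 : (((B ^ 2).natAbs : ℕ) : ℝ) ^ (ε / 2) ≤ V ^ ε := by
        calc (((B ^ 2).natAbs : ℕ) : ℝ) ^ (ε / 2) ≤ (V ^ (2 : ℝ)) ^ (ε / 2) :=
              Real.rpow_le_rpow (Nat.cast_nonneg _) h3 (by positivity)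
          _ = V ^ ε := by
              rw [← Real.rpow_mul (by linarith)]
              congr 1
              ring
      rw [Finset.card_product]
      have h5 : ({1, -1} : Finset ℤ).card = 2 := by decide
      rw [h5]
      push_cast
      have h6 : C * (((B ^ 2).natAbs : ℕ) : ℝ) ^ (ε / 2) ≤ C * V ^ ε := mul_le_mul_of_nonneg_left h4 (by linarith)
      linarith
    refine (Finset.sum_le_sum h1).trans ?_
    rw [Finset.sum_const, nsmul_eq_mul]
    have h2 : ((Finset.Icc (-(n : ℤ)) n).erase 0).card ≤ 2 * n := by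
      rw [Finset.card_erase_of_mem (by rw [Finset.mem_Icc]; omega), Int.card_Icc]
      omega
    have h3 : ((((Finset.Icc (-(n : ℤ)) n).erase 0).card : ℕ) : ℝ) ≤ 2 * V := by
      have h4 : ((((Finset.Icc (-(n : ℤ)) n).erase 0).card : ℕ) : ℝ) ≤ ((2 * n : ℕ) : ℝ) := by exact_mod_cast h2
      push_cast at h4
      linarith
    have h4 : 0 ≤ 2 * C * V ^ ε := by positivity
    calc ((((Finset.Icc (-(n : ℤ)) n).erase 0).card : ℕ) : ℝ) * (2 * C * V ^ ε) ≤ 2 * V * (2 * C * V ^ ε) :=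
          mul_le_mul_of_nonneg_right h3 h4
      _ = 4 * C * (V ^ (1 : ℝ) * V ^ ε) := by rw [Real.rpow_one]; ring
      _ = 4 * C * V ^ (1 + ε) := by rw [← Real.rpow_add (by linarith)]
  exact le_trans (by exact_mod_cast hcard) hS

end Pool.Agent.T6
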